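import Pool.Agent.helper34.NTA.Spec

set_option autoImplicit false

/-!
# Project NTA (MP_4536c8_co), row UNI (helper44)
-/

namespace Pool.Agent.NTA

open Equiv

theorem UNI_ia {D : Type} (τ : Perm D) (x : D) : τ⁻¹ (τ x) = x := τ.symm_apply_apply x

theorem UNI_ai {D : Type} (τ : Perm D) (x : D) : τ (τ⁻¹ x) = x := τ.apply_symm_apply x

theorem UNI_two {D : Type} (σ : Perm D) (r r' : D) (h1 : σ r = r') (h2 : σ r' = r) (d : D)
    (h : σ.SameCycle r d) : d = r ∨ d = r' := by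
  obtain ⟨k, rfl⟩ := h
  have i1 : σ⁻¹ r = r' := by rw [← h2, UNI_ia]
  have i2 : σ⁻¹ r' = r := by rw [← h1, UNI_ia]
  induction k using Int.induction_on with
  | zero => exact Or.inl rfl
  | succ k ih =>
    rw [add_comm, zpow_add, zpow_one, Perm.mul_apply]
    rcases ih with h | h
    · rw [h]; exact Or.inr h1
    · rw [h]; exact Or.inl h2
  | pred k ih =>
    rw [sub_eq_neg_add, zpow_add, zpow_neg_one, Perm.mul_apply]
    rcases ih with h | h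
    · rw [h]; exact Or.inr i1
    · rw [h]; exact Or.inl i2

theorem UNI_orig {T : Type} (τ : Perm T) (lab : T → ZMod 10) (e : T) (h : Orig τ lab e) :
    lab (τ e) = lab (τ⁻¹ e) ∧ lab (τ⁻¹ (τ⁻¹ e)) = lab e := by
  obtain ⟨h1, h2, -⟩ := h
  have h8 : (τ ^ 8) e = e := by
    have := Function.iterate_minimalPeriod (f := τ) (x := e)
    rw [h1, Perm.iterate_eq_pow] at this
    exact this
  have h7 : τ⁻¹ e = (τ ^ 7) e := by
    rw [Perm.inv_eq_iff_eq, ← Perm.mul_apply, ← pow_succ']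
    exact h8.symm
  have h6 : τ⁻¹ (τ⁻¹ e) = (τ ^ 6) e := by
    rw [h7, Perm.inv_eq_iff_eq, ← Perm.mul_apply, ← pow_succ']
  constructor
  · rw [h7]
    have a1 := h2 5
    have a2 := h2 3
    have a3 := h2 1
    rw [pow_one] at a3
    rw [a1, a2, a3]
  · rw [h6]
    have a1 := h2 4
    have a2 := h2 2
    have a3 := h2 0
    rw [pow_zero, Perm.one_apply] at a3
    rw [a1, a2, a3]

section

variable {H : Type} [Group H] {s : ZMod 10 → H} {sg : H →* ℤˣ} {hG : Grp H s sg}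
  {A : ArcFamily (VV sg)} {pos yp : H → ZMod 10 → ℕ} {σ : Perm A.Ray}

theorem UNI_ent (hP : PosData hG A pos yp) (τ : Perm {e : A.Ray // Exit A σ e})
    (hτ : ∀ e, Nxt A σ s pos e.1 (τ e).1) (hA : Abs s τ (fun e => hvr e.1) (fun e => labr pos e.1))
    (f : {e : A.Ray // Exit A σ e}) (h : H) (κ ρ : ZMod 10) (hf : hvr f.1 = h)
    (hκ : labr pos (τ⁻¹ f).1 = κ) (hρ : labr pos f.1 = ρ) :
    f.1.x = Sum.inl h ∧ f.1.i = pos h ρ ∧ f.1.b = decide (pos h ρ < pos h κ) ∧ ∃ a : A.Ray,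
      (¬ KL κ → a = (τ⁻¹ f).1) ∧ a.x ≠ Sum.inl h ∧ (σ a).x = Sum.inl h ∧ (σ a).i = pos h κ ∧
      (σ a).b = decide (pos h κ < pos h ρ) ∧
      ∀ r : A.Ray, r.x = Sum.inl h → (pos h κ < r.i ∧ r.i < pos h ρ ∨ pos h ρ < r.i ∧ r.i < pos h κ) →
        r.b = decide (r.i < pos h κ) → (σ r).x = r.x ∧ (σ r).i = r.i ∧ (σ r).b = !r.b := by
  have h1 := hτ (τ⁻¹ f)
  have hstep : hvr f.1 = hvr (τ⁻¹ f).1 * s (labr pos (τ⁻¹ f).1) := by
    have := hA.step (τ⁻¹ f)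
    simpa using this
  rw [UNI_ai] at h1
  obtain ⟨a, a1, a2, a3, a4, a5⟩ := h1
  rw [← hstep, hf] at a3
  rw [← hstep, hf, hκ] at a4
  rw [hκ] at a1
  have fx : f.1.x = Sum.inl h := by rw [a5.x, a3]
  have fi : f.1.i = pos h ρ := by
    have := labr_pos hP (r := f.1) (by rw [hf]; exact fx)
    rw [hf, hρ] at this
    exact this.symm
  refine ⟨fx, fi, ?_, a, a1, ?_, a3, a4, ?_, ?_⟩
  · rw [a5.b', fi, a4]
  · rw [← a3]; exact a2
  · rw [a5.b, fi, a4]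
  · intro r hr1 hr2 hr3
    apply a5.str r (by rw [hr1, fx])
    · rw [a4, fi]; exact hr2
    · rw [a4]; exact hr3

/-- a cycle of length two at an exit of a big arc: the number is `0` or `9` -/
theorem UNI_end (hP : PosData hG A pos yp) (hσ : ∀ r r' : A.Ray, σ.SameCycle r r' ↔ r.p = r'.p)
    (h : H) (e f : A.Ray) (h1 : σ e = f) (h2 : σ f = e) (hx : e.x = Sum.inl h) (hf : f.x ≠ Sum.inl h) :
    e.i = 0 ∨ e.i = 9 := by
  by_contra hcon
  push Not at hcon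
  obtain ⟨n0, n9⟩ := hcon
  have hlt : e.i < 10 := by
    have := ray_lt e
    rw [hx, hP.lenH] at this
    exact this
  have hok : e.i + (!e.b).toNat < A.len (Sum.inl h) ∧ 1 ≤ e.i + (!e.b).toNat := by
    rw [hP.lenH]
    cases e.b
    · change e.i + 1 < 10 ∧ 1 ≤ e.i + 1
      omega
    · change e.i + 0 < 10 ∧ 1 ≤ e.i + 0
      omega
  let r : A.Ray := ⟨Sum.inl h, e.i, !e.b, hok⟩
  have hp : e.p = r.p := by
    change A.pt e.x e.i = A.pt (Sum.inl h) e.i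
    rw [hx]
  rcases UNI_two σ e f h1 h2 r ((hσ e r).2 hp) with h3 | h3
  · have h4 : (!e.b) = e.b := congrArg ArcFamily.Ray.b h3
    cases hb : e.b <;> rw [hb] at h4 <;> exact absurd h4 (by decide)
  · have h4 : Sum.inl h = f.x := congrArg ArcFamily.Ray.x h3
    exact hf h4.symm

theorem UNI_key (hP : PosData hG A pos yp) (hσ : ∀ r r' : A.Ray, σ.SameCycle r r' ↔ r.p = r'.p)
    (τ : Perm {e : A.Ray // Exit A σ e}) (hτ : ∀ e, Nxt A σ s pos e.1 (τ e).1)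
    (hA : Abs s τ (fun e => hvr e.1) (fun e => labr pos e.1)) (e e' : {e : A.Ray // Exit A σ e})
    (he : Orig τ (fun e => labr pos e.1) e) (he' : Orig τ (fun e => labr pos e.1) e') (h : H)
    (hh : hvr e.1 = h) (hh' : hvr e'.1 = h) (κ ρ : ZMod 10) (hκ : KL κ) (hρ : ¬ KL ρ)
    (l1 : labr pos (τ⁻¹ e).1 = κ) (l2 : labr pos e.1 = ρ) (l3 : labr pos (τ⁻¹ e').1 = ρ)
    (l4 : labr pos e'.1 = κ) : False := by
  have hne : κ ≠ ρ := fun h => hρ (h ▸ hκ)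
  have hij : pos h κ ≠ pos h ρ := fun hp => hne (hP.inj h _ _ hp)
  obtain ⟨o1, -⟩ := UNI_orig τ _ e he
  obtain ⟨-, o2'⟩ := UNI_orig τ _ e' he'
  have o1 : labr pos (τ e).1 = labr pos (τ⁻¹ e).1 := o1
  have o2' : labr pos (τ⁻¹ (τ⁻¹ e')).1 = labr pos e'.1 := o2'
  obtain ⟨ex, ei, eb, a, -, ax, sx, si, sb, str⟩ := UNI_ent hP τ hτ hA e h κ ρ hh l1 l2
  obtain ⟨ex', ei', eb', a', ha', ax', sx', si', sb', str'⟩ := UNI_ent hP τ hτ hA e' h ρ κ hh' l3 l4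
  have ha'' := ha' hρ
  -- the exit before `e'`
  have hsb : hvr (τ⁻¹ e').1 = h * s ρ := by
    have hst : hvr e'.1 = hvr (τ⁻¹ e').1 * s (labr pos (τ⁻¹ e').1) := by
      have := hA.step (τ⁻¹ e')
      simpa using this
    rw [hh', l3] at hst
    rw [hst, mul_s_mul_s hG]
  obtain ⟨fx, fi, fb, -⟩ := UNI_ent hP τ hτ hA (τ⁻¹ e') (h * s ρ) κ ρ hsb (by rw [o2', l4]) l3
  -- the exit after `e`
  have htb : hvr (τ e).1 = h * s ρ := by
    have hst : hvr (τ e).1 = hvr e.1 * s (labr pos e.1) := hA.step e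
    rw [hst, hh, l2]
  obtain ⟨-, -, -, a2, ha2, -, sx2, si2, sb2, -⟩ := UNI_ent hP τ hτ hA (τ e) (h * s ρ) ρ κ htb
    (by rw [UNI_ia]; exact l2) (by rw [o1, l1])
  have ha2' := ha2 hρ
  rw [UNI_ia] at ha2'
  rw [ha2'] at sx2 si2 sb2
  -- (a)
  have c1 : σ e.1 = (τ⁻¹ e').1 := by
    apply ArcFamily.Ray.ext
    · rw [sx2, fx]
    · rw [si2, fi]
    · rw [sb2, fb]
  have c2 : σ (τ⁻¹ e').1 = e.1 := by
    rw [← ha'']
    apply ArcFamily.Ray.ext
    · rw [sx', ex]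
    · rw [si', ei]
    · rw [sb', eb]
  have hj := UNI_end hP hσ h e.1 _ c1 c2 ex (by
    rw [fx]
    intro hc
    exact mul_s_ne hG h ρ (Sum.inl.inj hc))
  rw [ei] at hj
  -- (b)
  have c3 : σ a = e'.1 := by
    apply ArcFamily.Ray.ext
    · rw [sx, ex']
    · rw [si, ei']
    · rw [sb, eb']
  have small : ∀ r : A.Ray, r.x ≠ Sum.inl h → r.p = e'.1.p → r.x = Sum.inr (yy hG h κ hκ) ∧ r.i = yp h κ := by
    intro r hr hp
    have h1 : A.pt r.x r.i = A.pt (Sum.inl h) (pos h κ) := by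
      have h2 : A.pt r.x r.i = A.pt e'.1.x e'.1.i := hp
      rw [h2, ex', ei']
    rcases hP.twoK h κ hκ r.x r.i (ray_lt r) h1 with ⟨h3, -⟩ | ⟨h3, h4⟩
    · exact absurd h3 hr
    · exact ⟨h3, h4⟩
  have uniq : ∀ r r' : A.Ray, r.x = Sum.inr (yy hG h κ hκ) → r.i = yp h κ → r'.x = Sum.inr (yy hG h κ hκ) →
      r'.i = yp h κ → r = r' := by
    intro r r' h1 h2 h3 h4
    apply ArcFamily.Ray.ext
    · rw [h1, h3]
    · rw [h2, h4]
    · have k1 := r.ok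
      have k2 := r'.ok
      rw [h1, hP.lenY, h2] at k1
      rw [h3, hP.lenY, h4] at k2
      have k3 : yp h κ < 2 := hP.ylt h κ hκ
      have key : ∀ b b' : Bool, yp h κ + b.toNat < 2 ∧ 1 ≤ yp h κ + b.toNat →
          yp h κ + b'.toNat < 2 ∧ 1 ≤ yp h κ + b'.toNat → b = b' := by
        intro b b' k1 k2
        cases b <;> cases b' <;> simp only [Bool.toNat_true, Bool.toNat_false] at k1 k2 <;>
          first
            | rfl
            | (exfalso; omega)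
      exact key _ _ k1 k2
  have pa : a.p = e'.1.p := by
    rw [← c3]
    exact (hσ a (σ a)).1 ((Perm.sameCycle_apply_right).2 (Perm.SameCycle.refl σ a))
  have ps : (σ e'.1).p = e'.1.p :=
    ((hσ e'.1 (σ e'.1)).1 ((Perm.sameCycle_apply_right).2 (Perm.SameCycle.refl σ e'.1))).symm
  have sne : (σ e'.1).x ≠ Sum.inl h := by
    have := e'.2.2
    rw [ex'] at this
    exact this
  obtain ⟨q1, q2⟩ := small a ax pa
  obtain ⟨q3, q4⟩ := small (σ e'.1) sne ps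
  have c4 : σ e'.1 = a := uniq _ _ q3 q4 q1 q2
  have hi := UNI_end hP hσ h e'.1 _ c4 c3 ex' ax
  rw [ei'] at hi
  -- (c)
  have hlen : ∀ x, 2 ≤ A.len x := by
    intro x
    rcases x with x | x
    · rw [hP.lenH]; omega
    · rw [hP.lenY]
  have hbt : pos h κ < 1 ∧ 1 < pos h ρ ∨ pos h ρ < 1 ∧ 1 < pos h κ := by omega
  have hbt' : pos h ρ < 1 ∧ 1 < pos h κ ∨ pos h κ < 1 ∧ 1 < pos h ρ := by omega
  have hmk : ∀ b : Bool, 1 + b.toNat < A.len (Sum.inl h) ∧ 1 ≤ 1 + b.toNat := by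
    intro b
    rw [hP.lenH]
    cases b
    · exact ⟨by decide, by decide⟩
    · exact ⟨by decide, by decide⟩
  have t1 : ∀ b : Bool, σ (⟨Sum.inl h, 1, b, hmk b⟩ : A.Ray) = ⟨Sum.inl h, 1, !b, hmk (!b)⟩ := by
    intro b
    have d1 : decide (1 < pos h κ) = b ∨ decide (1 < pos h ρ) = b := by
      rcases hbt with ⟨u, v⟩ | ⟨u, v⟩
      · have w : ¬ 1 < pos h κ := by omega
        cases b
        · left; exact decide_eq_false w
        · right; exact decide_eq_true v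
      · have w : ¬ 1 < pos h ρ := by omega
        cases b
        · right; exact decide_eq_false w
        · left; exact decide_eq_true v
    rcases d1 with d1 | d1
    · obtain ⟨s1, s2, s3⟩ := str ⟨Sum.inl h, 1, b, hmk b⟩ rfl hbt d1.symm
      exact ArcFamily.Ray.ext s1 s2 s3
    · obtain ⟨s1, s2, s3⟩ := str' ⟨Sum.inl h, 1, b, hmk b⟩ rfl hbt' d1.symm
      exact ArcFamily.Ray.ext s1 s2 s3
  obtain ⟨r, hr1, hr2⟩ := other_ray A hlen (⟨Sum.inl h, 1, true, hmk true⟩ : A.Ray)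
  rcases UNI_two σ _ _ (t1 true) (t1 false) r ((hσ _ r).2 hr2.symm) with h3 | h3
  · exact hr1 (by rw [h3])
  · exact hr1 (by rw [h3])

end

theorem UNI (hABS : ABS_stmt) : UNI_stmt := by
  intro H _ _ s sg hG A pos yp σ hP hσ τ hτ e e' he he' hh c hc hc'
  have hA := hABS H s sg hG A pos yp σ hP τ hτ
  have same : ∀ κ ρ : ZMod 10, labr pos (τ⁻¹ e).1 = κ → labr pos e.1 = ρ → labr pos (τ⁻¹ e').1 = κ →
      labr pos e'.1 = ρ → e = e' := by
    intro κ ρ l1 l2 l3 l4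
    obtain ⟨ex, ei, eb, -⟩ := UNI_ent hP τ hτ hA e (hvr e'.1) κ ρ hh l1 l2
    obtain ⟨ex', ei', eb', -⟩ := UNI_ent hP τ hτ hA e' (hvr e'.1) κ ρ rfl l3 l4
    apply Subtype.ext
    apply ArcFamily.Ray.ext
    · rw [ex, ex']
    · rw [ei, ei']
    · rw [eb, eb']
  have hKL : ∀ c : ZMod 10, KL c ∧ ¬ KL (c + 1) ∨ ¬ KL c ∧ KL (c + 1) := by decide
  have opp : labr pos (τ⁻¹ e).1 = c → labr pos e.1 = c + 1 → labr pos (τ⁻¹ e').1 = c + 1 →
      labr pos e'.1 = c → False := by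
    intro l1 l2 l3 l4
    rcases hKL c with ⟨k1, k2⟩ | ⟨k1, k2⟩
    · exact UNI_key hP hσ τ hτ hA e e' he he' (hvr e'.1) hh rfl c (c + 1) k1 k2 l1 l2 l3 l4
    · exact UNI_key hP hσ τ hτ hA e' e he' he (hvr e'.1) rfl hh (c + 1) c k2 k1 l3 l4 l1 l2
  have opp2 : labr pos (τ⁻¹ e').1 = c → labr pos e'.1 = c + 1 → labr pos (τ⁻¹ e).1 = c + 1 →
      labr pos e.1 = c → False := by
    intro l1 l2 l3 l4
    rcases hKL c with ⟨k1, k2⟩ | ⟨k1, k2⟩
    · exact UNI_key hP hσ τ hτ hA e' e he' he (hvr e'.1) rfl hh c (c + 1) k1 k2 l1 l2 l3 l4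
    · exact UNI_key hP hσ τ hτ hA e e' he he' (hvr e'.1) hh rfl (c + 1) c k2 k1 l3 l4 l1 l2
  rcases hc with ⟨u1, u2⟩ | ⟨u1, u2⟩ <;> rcases hc' with ⟨v1, v2⟩ | ⟨v1, v2⟩
  · exact same c (c + 1) u1 u2 v1 v2
  · exact (opp u1 u2 v1 v2).elim
  · exact (opp2 v1 v2 u1 u2).elim
  · exact same (c + 1) c u1 u2 v1 v2

end Pool.Agent.NTA
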